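import Pool.Agent.Helper92.AH.Defs

set_option autoImplicit false

namespace Pool.Agent.Helper92.AH

open Finset Classical

theorem comb_ncard {α : Type} (X : Set α) (hX : X.Finite) (p : α → Prop) :
    (({x | x ∈ X ∧ p x}.ncard : ℕ) : ℤ) = ∑ x ∈ hX.toFinset, if p x then (1 : ℤ) else 0 := by
  have e : {x | x ∈ X ∧ p x} = ((hX.toFinset.filter p : Finset α) : Set α) := by
    ext x; simp
  rw [e, Set.ncard_coe_finset, Finset.card_filter]
  push_cast
  rfl

/-- fixed points of an involution, mod 2 -/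
theorem comb_parity {β : Type} (J : Set β) (hJ : J.Finite) (τ : β → β) (h1 : ∀ y ∈ J, τ y ∈ J)
    (h2 : ∀ y ∈ J, τ (τ y) = y) :
    (J.ncard : ZMod 2) = (({y | y ∈ J ∧ τ y = y}.ncard : ℕ) : ZMod 2) := by
  have e1 : J.ncard = hJ.toFinset.card := Set.ncard_eq_toFinset_card J hJ
  have e2 : {y | y ∈ J ∧ τ y = y}.ncard = (hJ.toFinset.filter fun y => τ y = y).card := by
    rw [← Set.ncard_coe_finset]
    congr 1
    ext x; simp
  rw [e1, e2, ← Finset.card_filter_add_card_filter_not (s := hJ.toFinset) (fun y => τ y = y)]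
  push_cast
  have e3 : ∑ y ∈ hJ.toFinset.filter (fun y => ¬ τ y = y), (1 : ZMod 2) = 0 := by
    refine Finset.sum_involution (fun y _ => τ y) ?_ ?_ ?_ ?_
    · intro a _; decide
    · intro a ha _
      exact (Finset.mem_filter.mp ha).2
    · intro a ha
      have ha1 := (Finset.mem_filter.mp ha).1
      have ha2 := (Finset.mem_filter.mp ha).2
      rw [Set.Finite.mem_toFinset] at ha1
      refine Finset.mem_filter.mpr ⟨?_, ?_⟩
      · rw [Set.Finite.mem_toFinset]; exact h1 a ha1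
      · rw [h2 a ha1]
        exact fun h => ha2 h.symm
    · intro a ha
      have ha1 := (Finset.mem_filter.mp ha).1
      rw [Set.Finite.mem_toFinset] at ha1
      exact h2 a ha1
  rw [Finset.sum_const, nsmul_eq_mul, mul_one] at e3
  rw [e3, add_zero]

theorem st_COMB (hR : ST_RYSER) : ST_COMB := by
  intro α β X Y I l σ τ hl hσX hτY hσσ hττ hI hD hD0 hmov y0 hy0 hy0f
  have hX : X.Finite := hD.1
  have hY : Y.Finite := hD.2.1
  have hXY : X.ncard = Y.ncard := hD.2.2.1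
  have hX0 : {x | x ∈ X ∧ σ x = x}.Finite := hD0.1
  have hY0 : {y | y ∈ Y ∧ τ y = y}.Finite := hD0.2.1
  have hXY0 : {x | x ∈ X ∧ σ x = x}.ncard = {y | y ∈ Y ∧ τ y = y}.ncard := hD0.2.2.1
  obtain ⟨k', hk', hb', hr', hd', hp'⟩ := hR α β X Y I l hl hD
  obtain ⟨k, hk, hb, hr, hd, hp⟩ := hR α β {x | x ∈ X ∧ σ x = x} {y | y ∈ Y ∧ τ y = y} I l hl hD0
  obtain ⟨_, _, _, _, _, _, hpl⟩ := hD
  -- two fixed blocks meet in fixed points only
  have step1 : ∀ x ∈ X, σ x ≠ x → ∀ y ∈ Y, τ y = y → ∀ y' ∈ Y, τ y' = y' → I x y → I x y' →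
      y = y' := by
    intro x hx hm y hy hyf y' hy' hyf' h1 h2
    by_contra hne
    have e1 := hd' y hy y' hy' hne
    have e2 := hd y ⟨hy, hyf⟩ y' ⟨hy', hyf'⟩ hne
    have hsub : {z | z ∈ {x | x ∈ X ∧ σ x = x} ∧ I z y ∧ I z y'} ⊆ {z | z ∈ X ∧ I z y ∧ I z y'} := by
      rintro z ⟨hz1, hz2⟩
      exact ⟨hz1.1, hz2⟩
    have hfin : {z | z ∈ X ∧ I z y ∧ I z y'}.Finite := hX.subset (fun z hz => hz.1)
    have heq := Set.eq_of_subset_of_ncard_le hsub (by rw [e1, e2]) hfin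
    have hxm : x ∈ {z | z ∈ X ∧ I z y ∧ I z y'} := ⟨hx, h1, h2⟩
    rw [← heq] at hxm
    exact hm hxm.1.2
  -- parity
  have step2 : ∀ x ∈ X, σ x ≠ x →
      {y | y ∈ {y | y ∈ Y ∧ τ y = y} ∧ I x y}.ncard = l % 2 := by
    intro x hx hm
    have hJ : {y | y ∈ Y ∧ I x y ∧ I (σ x) y}.ncard = l := hpl x hx (σ x) (hσX x hx) hm.symm
    have hJf : {y | y ∈ Y ∧ I x y ∧ I (σ x) y}.Finite := hY.subset (fun z hz => hz.1)
    have hpar := comb_parity {y | y ∈ Y ∧ I x y ∧ I (σ x) y} hJf τ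
      (by
        rintro y ⟨hy, h1, h2⟩
        refine ⟨hτY y hy, ?_, (hI x hx y hy).mpr h1⟩
        have h3 := (hI (σ x) (hσX x hx) y hy).mpr h2
        rwa [hσσ x hx] at h3)
      (by
        rintro y ⟨hy, _, _⟩
        exact hττ y hy)
    have heq : {y | y ∈ {y | y ∈ Y ∧ I x y ∧ I (σ x) y} ∧ τ y = y} =
        {y | y ∈ {y | y ∈ Y ∧ τ y = y} ∧ I x y} := by
      ext y
      constructor
      · rintro ⟨⟨a, b, c⟩, d⟩
        exact ⟨⟨a, d⟩, b⟩
      · rintro ⟨⟨a, d⟩, b⟩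
        refine ⟨⟨a, b, ?_⟩, d⟩
        have h3 := (hI x hx y a).mpr b
        rwa [d] at h3
    rw [hJ, heq, ZMod.natCast_eq_natCast_iff'] at hpar
    have hle : {y | y ∈ {y | y ∈ Y ∧ τ y = y} ∧ I x y}.ncard ≤ 1 := by
      rw [Set.ncard_le_one (hY0.subset (fun z hz => hz.1))]
      rintro a ⟨⟨ha1, ha2⟩, ha3⟩ b ⟨⟨hb1, hb2⟩, hb3⟩
      exact step1 x hx hm a ha1 ha2 b hb1 hb2 ha3 hb3
    omega
  -- double counting
  set v : ℕ := {x | x ∈ X ∧ σ x = x}.ncard with hv
  have hXF0 : hX0.toFinset = hX.toFinset.filter (fun x => σ x = x) := by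
    ext x; simp
  have hcard0 : (hX.toFinset.filter (fun x => σ x = x)).card = v := by
    rw [← hXF0, hv, Set.ncard_eq_toFinset_card _ hX0]
  have hcard1 : ((hX.toFinset.filter (fun x => ¬ σ x = x)).card : ℤ) = (X.ncard : ℤ) - v := by
    have h1 := Finset.card_filter_add_card_filter_not (s := hX.toFinset) (fun x => σ x = x)
    rw [hcard0, ← Set.ncard_eq_toFinset_card X hX] at h1
    have h2 : ((v + (hX.toFinset.filter (fun x => ¬ σ x = x)).card : ℕ) : ℤ) = (X.ncard : ℤ) := by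
      exact_mod_cast h1
    push_cast at h2
    linarith
  have hYcard : (hY0.toFinset.card : ℤ) = v := by
    rw [← Set.ncard_eq_toFinset_card _ hY0, ← hXY0]
  have hcount : ((X.ncard : ℤ) - v) * ((l % 2 : ℕ) : ℤ) = v * ((k' : ℤ) - k) := by
    have h1 : ∑ x ∈ hX.toFinset.filter (fun x => ¬ σ x = x), ∑ y ∈ hY0.toFinset,
        (if I x y then (1 : ℤ) else 0) = ((X.ncard : ℤ) - v) * ((l % 2 : ℕ) : ℤ) := by
      rw [← hcard1, ← nsmul_eq_mul, ← Finset.sum_const]
      refine Finset.sum_congr rfl fun x hx => ?_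
      have hx1 := (Finset.mem_filter.mp hx).1
      have hx2 := (Finset.mem_filter.mp hx).2
      rw [Set.Finite.mem_toFinset] at hx1
      rw [← comb_ncard {y | y ∈ Y ∧ τ y = y} hY0 (fun y => I x y), step2 x hx1 hx2]
    have h2 : ∑ y ∈ hY0.toFinset, ∑ x ∈ hX.toFinset.filter (fun x => ¬ σ x = x),
        (if I x y then (1 : ℤ) else 0) = v * ((k' : ℤ) - k) := by
      rw [← hYcard, ← nsmul_eq_mul, ← Finset.sum_const]
      refine Finset.sum_congr rfl fun y hy => ?_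
      rw [Set.Finite.mem_toFinset] at hy
      have h3 := comb_ncard X hX (fun x => I x y)
      have h4 := comb_ncard {x | x ∈ X ∧ σ x = x} hX0 (fun x => I x y)
      rw [hb' y hy.1] at h3
      rw [hb y hy, hXF0] at h4
      have h5 := Finset.sum_filter_add_sum_filter_not hX.toFinset (fun x => σ x = x)
        (fun x => if I x y then (1 : ℤ) else 0)
      rw [← h3, ← h4] at h5
      linarith
    rw [← h1, Finset.sum_comm, h2]
  have hvpos : (0 : ℤ) < v := by
    have : 0 < v := lt_of_le_of_lt (Nat.zero_le _) hk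
    exact_mod_cast this
  have hvlt : (v : ℤ) < X.ncard := by
    obtain ⟨x, hx, hm⟩ := hmov
    have : v < X.ncard := by
      apply Set.ncard_lt_ncard _ hX
      refine ⟨fun z hz => hz.1, fun h => hm (h hx).2⟩
    exact_mod_cast this
  have hkk : ({x | x ∈ X ∧ I x y0}.ncard : ℤ) = k' := by exact_mod_cast hb' y0 hy0
  have hkk0 : ({x | (x ∈ X ∧ σ x = x) ∧ I x y0}.ncard : ℤ) = k := by
    exact_mod_cast hb y0 ⟨hy0, hy0f⟩
  rw [hkk, hkk0]
  have hl' : (1 : ℤ) ≤ l := by exact_mod_cast hl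
  rcases Nat.mod_two_eq_zero_or_one l with h0 | h1
  · exfalso
    rw [h0] at hcount
    have h2 : (k' : ℤ) - k = 0 := by
      have h3 : (v : ℤ) * ((k' : ℤ) - k) = 0 := by rw [← hcount]; simp
      rcases mul_eq_zero.mp h3 with h4 | h4
      · exact absurd h4 hvpos.ne'
      · exact h4
    have h3 : (k' : ℤ) = k := by linarith
    rw [h3, ← hp] at hp'
    have h4 := mul_left_cancel₀ (by positivity : (l : ℤ) ≠ 0) hp'
    linarith
  · rw [h1] at hcount
    have h2 : (X.ncard : ℤ) - v = v * ((k' : ℤ) - k) := by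
      rw [← hcount]; simp
    have h3 : (k' : ℤ) - k ≠ 0 := by
      intro h; rw [h] at h2; linarith
    have h4 : ((k' : ℤ) - k) * ((l : ℤ) * v) = ((k' : ℤ) - k) * (k' + k - 1) := by
      linear_combination hp' - hp - (l : ℤ) * h2
    have h5 := mul_left_cancel₀ h3 h4
    linear_combination (-1 : ℤ) * h5 + hp

end Pool.Agent.Helper92.AH
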