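import Pool.Agent.Helper92.AH.PKB
import Pool.Agent.Helper7.AH.GROW

set_option autoImplicit false

namespace Pool.Agent.Helper92.AH

open MvPolynomial

theorem finb_periodic (F K : Type) [Field F] [Finite F] [Field K] [Algebra F K]
    [Algebra.IsAlgebraic F K] (N : ℕ) (S : Set (Fin N → K)) (hS : S.Finite) :
    ∃ n, 0 < n ∧ ∀ x ∈ S, ∀ i, x i ^ (Nat.card F ^ n) = x i := by
  choose e he he' using fun z : K => grow_periodic F z
  have key : ∀ (z : K) (n : ℕ), e z ∣ n → z ^ (Nat.card F ^ n) = z := by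
    rintro z n ⟨k, rfl⟩
    induction k with
    | zero => simp
    | succ k ih => rw [Nat.mul_succ, pow_add, pow_mul, ih, he']
  refine ⟨∏ x ∈ hS.toFinset, ∏ i, e (x i),
    Finset.prod_pos fun x _ => Finset.prod_pos fun i _ => he _, ?_⟩
  intro x hx i
  apply key
  exact (Finset.dvd_prod_of_mem (fun i => e (x i)) (Finset.mem_univ i)).trans
    (Finset.dvd_prod_of_mem (fun x : Fin N → K => ∏ i, e (x i))
      (hS.mem_toFinset.mpr hx))

/-- FINB: a finite constructible set has a bounded number of points. -/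
theorem finb_main (h : ST_PADICKB) (F K : Type) [Field F] [Finite F] [Field K] [IsAlgClosed K]
    [Algebra F K] [Algebra.IsAlgebraic F K] (N : ℕ) (ι : Type) [Fintype ι]
    (P : ι → MvPolynomial (Fin N) F) (T : Set (Set ι)) (d : ℕ)
    (hd : ∀ i j, degreeOf j (P i) ≤ d) (hfin : (Pts P T K).Finite) :
    (Pts P T K).ncard ≤ 3 ^ Fintype.card ι * (Fintype.card ι * d) ^ N := by
  obtain ⟨p, hp⟩ := CharP.exists F
  have hpp : Fact p.Prime := ⟨CharP.char_is_prime F p⟩
  obtain ⟨c, hc, hs⟩ := h p F K N ι P T d hd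
  obtain ⟨n0, hn0, hn0'⟩ := finb_periodic F K N _ hfin
  have hfx : ∀ n, n0 ∣ n → fx (Nat.card F) n (Pts P T K) = Pts P T K := by
    rintro n ⟨k, rfl⟩
    ext x
    refine ⟨fun hx => hx.1, fun hx => ⟨hx, fun i => ?_⟩⟩
    induction k with
    | zero => simp
    | succ k ih => rw [Nat.mul_succ, pow_add, pow_mul, ih, hn0' x hx i]
  have hdvd : ∀ s : ℕ, (p : ℤ) ^ s ∣ (((Pts P T K).ncard : ℕ) : ℤ) - c := by
    intro s
    obtain ⟨M, hM, hM'⟩ := hs s
    have := hM' (n0 * M) (by positivity) (dvd_mul_left _ _)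
    rwa [hfx _ (dvd_mul_right _ _)] at this
  have heq : (((Pts P T K).ncard : ℕ) : ℤ) - c = 0 := by
    by_contra hne
    have h1 := Int.natAbs_dvd_natAbs.mpr (hdvd (Int.natAbs ((((Pts P T K).ncard : ℕ) : ℤ) - c)))
    rw [Int.natAbs_pow, Int.natAbs_natCast] at h1
    have h2 := Nat.le_of_dvd (Int.natAbs_pos.mpr hne) h1
    have h3 := Nat.lt_pow_self (n := Int.natAbs ((((Pts P T K).ncard : ℕ) : ℤ) - c)) hpp.out.one_lt
    omega
  have h4 : (((Pts P T K).ncard : ℕ) : ℤ) ≤ (3 : ℤ) ^ Fintype.card ι *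
      ((Fintype.card ι * d : ℕ) : ℤ) ^ N := by
    have h5 : (((Pts P T K).ncard : ℕ) : ℤ) = c := by linarith
    rw [h5]
    exact (le_abs_self c).trans hc
  exact_mod_cast h4

/-- The theorem with an explicit bound for the number of points. -/
def ST_MAINX : Prop :=
  ∀ (F : Type) [Field F] [Finite F] (N M : ℕ) (a b c d : ℕ)
    (P : Fin a → MvPolynomial (Fin N) F) (T : Set (Set (Fin a)))
    (Q : Fin b → MvPolynomial (Fin M) F) (U : Set (Set (Fin b)))
    (R : Fin c → MvPolynomial (Fin N ⊕ Fin M) F) (W : Set (Set (Fin c))) (L m : ℕ),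
    (∀ i j, degreeOf j (P i) ≤ d) → 0 < m →
    (∀ (E : Type) [Field E] [Finite E] [Algebra F E], m ∣ Module.finrank F E →
      ∃ l, 1 ≤ l ∧ l ≤ L ∧ SymDesign (Pts P T E) (Pts Q U E) (Inc R W) l) →
    (∀ (E : Type) [Field E] [Finite E] [Algebra F E],
      (Pts P T E).ncard ≤ 3 ^ a * (a * d) ^ N) ∨
    (∀ (E : Type) [Field E] [Finite E] [Algebra F E], m ∣ Module.finrank F E →
      SymDesign (Pts P T E) (Pts Q U E) (Inc R W) 1)

theorem st_MAINX (hPB : ST_PADICKB) (hMAINB : ST_MAINB) (hFIELD : ST_FIELD)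
    (hTRANSP : ST_TRANSP) : ST_MAINX := by
  intro F _ _ N M a b c d P T Q U R W L m hd hm hyp
  have hK : ∀ n, 0 < n → m ∣ n → ∃ l, 1 ≤ l ∧ l ≤ L ∧
      SymDesign (fx (Nat.card F) n (Pts P T (AlgebraicClosure F)))
        (fx (Nat.card F) n (Pts Q U (AlgebraicClosure F))) (Inc R W) l := by
    intro n hn hmn
    obtain ⟨E, hE1, hE2, hE3, hfin, _⟩ := hFIELD.1 F (AlgebraicClosure F) n hn
    obtain ⟨l, h1, h2, h3⟩ := hyp E (by rw [hfin]; exact hmn)
    refine ⟨l, h1, h2, ?_⟩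
    have h4 := ((hTRANSP F (AlgebraicClosure F) E N (Fin a) P T).2 M (Fin b) (Fin c) Q U R W l).mp h3
    rw [hfin] at h4
    exact h4
  rcases hMAINB F (AlgebraicClosure F) N M (Fin a) (Fin b) (Fin c) P T Q U R W L m hm hK with h | h
  · left
    have hb := finb_main hPB F (AlgebraicClosure F) N (Fin a) P T d hd h
    rw [Fintype.card_fin] at hb
    intro E _ _ _
    rw [(hTRANSP F (AlgebraicClosure F) E N (Fin a) P T).1]
    exact (Set.ncard_le_ncard (fun x hx => hx.1) h).trans hb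
  · right
    intro E _ _ _ hE
    have hpos : 0 < Module.finrank F E := Module.finrank_pos
    exact ((hTRANSP F (AlgebraicClosure F) E N (Fin a) P T).2 M (Fin b) (Fin c) Q U R W 1).mpr
      (h _ hpos hE)

end Pool.Agent.Helper92.AH
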