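import Pool.Agent.Helper92.AH.RYSER
import Pool.Agent.Helper92.AH.COMB
import Pool.Agent.Helper92.AH.FINB
import Pool.Agent.Helper7.AH.GROW
import Pool.Agent.Helper7.AH.TRACE
import Pool.Agent.Helper16.AH.COFIN
import Pool.Agent.Helper16.AH.COUNT
import Pool.Agent.Helper18.AH.UV
import Pool.Agent.Helper18.AH.TRID
import Pool.Agent.Helper18.AH.BOXSUM
import Pool.Agent.Helper44.AH.CHAIN
import Pool.Agent.Helper44.AH.FIELD
import Pool.Agent.Helper44.AH.MAINB
import Pool.Agent.Helper22.AH.MAINK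
import Pool.Agent.Helper22.AH.TRANSP
import Pool.Agent.Helper82.AH.SUMU
import Pool.Agent.Helper27.AH.TEICH
import Pool.Agent.Helper27.AH.WQ
import Pool.Agent.Helper55.AH.IND
import Pool.Agent.Helper32.AH.RANK
import Pool.Agent.Helper90.AH.BLOCK
import Pool.Agent.Helper94.AH.PADIC1
import Pool.Agent.Helper11.AH.PADICK

set_option autoImplicit false

/-! Assembly of all modules (MP_c38931_co, algebraic families of symmetric designs). -/

namespace Pool.Agent.Helper92.AH

theorem t_COMB : ST_COMB := st_COMB st_RYSER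
theorem t_IND : ST_IND := st_IND st_TEICH
theorem t_COUNT : ST_COUNT := st_COUNT t_IND (st_BOXSUM st_SUMU) st_TRACE
theorem t_CHAIN : ST_CHAIN := st_CHAIN st_RANK st_UV st_IDEM
theorem t_PADIC1 : ST_PADIC1 := st_PADIC1 t_COUNT st_IDEM st_TRID t_CHAIN st_WQ
theorem t_PADIC1B : ST_PADIC1B := st_PADIC1B t_COUNT st_IDEM st_TRID t_CHAIN st_WQ
theorem t_TRANSP : ST_TRANSP := st_TRANSP st_FIELD
theorem t_PADICK : ST_PADICK := st_PADICK t_PADIC1 st_FIELD t_TRANSP
theorem t_PADICKB : ST_PADICKB := st_PADICKB t_PADIC1B st_FIELD t_TRANSP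
theorem t_BLOCK : ST_BLOCK := st_BLOCK t_PADICK st_FIELD
theorem t_GROW : ST_GROW := st_GROW st_COFIN
theorem t_MAINK : ST_MAINK := st_MAINK t_COMB t_BLOCK t_GROW
theorem t_MAINB : ST_MAINB := st_MAINB t_MAINK
theorem t_MAINX : ST_MAINX := st_MAINX t_PADICKB t_MAINB st_FIELD t_TRANSP

end Pool.Agent.Helper92.AH
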