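import Mathlib

/-!
# Algebraic families of symmetric designs: definitions and module statements

Blueprint: /team-store/h92_hall.md .  Every `ST_x : Prop` is one module.
-/

set_option autoImplicit false

namespace Pool.Agent.Helper92.AH

open MvPolynomial

/-- `E`-points of the constructible set `(P, T)` over `F`: the points `x` of affine `N`-space over
`E` for which the set of indices `i` with `P i (x) = 0` belongs to `T`. -/
def Pts {F : Type} [Field F] {N : ℕ} {ι : Type} (P : ι → MvPolynomial (Fin N) F)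
    (T : Set (Set ι)) (E : Type) [Field E] [Algebra F E] : Set (Fin N → E) :=
  {x | {i | aeval x (P i) = 0} ∈ T}

/-- Constructible incidence relation `(R, W)` over `F` between points of affine `N`-space and
points of affine `M`-space over `E`. -/
def Inc {F : Type} [Field F] {N M : ℕ} {ι : Type} (R : ι → MvPolynomial (Fin N ⊕ Fin M) F)
    (W : Set (Set ι)) {E : Type} [Field E] [Algebra F E] (x : Fin N → E) (y : Fin M → E) : Prop :=
  {i | aeval (Sum.elim x y) (R i) = 0} ∈ W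

/-- The finite sets `X` (points) and `Y` (blocks) with incidence `I` form a symmetric
`2-(v, k, l)` design: `v = |X| = |Y|`, every block has `k < v` points, and any two
distinct points are on exactly `l` common blocks. -/
def SymDesign {α β : Type} (X : Set α) (Y : Set β) (I : α → β → Prop) (l : ℕ) : Prop :=
  X.Finite ∧ Y.Finite ∧ X.ncard = Y.ncard ∧
    ∃ k, k < X.ncard ∧ (∀ y ∈ Y, {x | x ∈ X ∧ I x y}.ncard = k) ∧
      ∀ x ∈ X, ∀ x' ∈ X, x ≠ x' → {y | y ∈ Y ∧ I x y ∧ I x' y}.ncard = l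

/-! ## Part A: designs -/

/-- RYSER.  Dual properties of a symmetric design with `l ≥ 1`. -/
def ST_RYSER : Prop :=
  ∀ (α β : Type) (X : Set α) (Y : Set β) (I : α → β → Prop) (l : ℕ), 1 ≤ l →
    SymDesign X Y I l →
    ∃ k, k < X.ncard ∧ (∀ y ∈ Y, {x | x ∈ X ∧ I x y}.ncard = k) ∧
      (∀ x ∈ X, {y | y ∈ Y ∧ I x y}.ncard = k) ∧
      (∀ y ∈ Y, ∀ y' ∈ Y, y ≠ y' → {x | x ∈ X ∧ I x y ∧ I x y'}.ncard = l) ∧
      (l : ℤ) * ((X.ncard : ℤ) - 1) = (k : ℤ) * ((k : ℤ) - 1)

/-- COMB.  Baer involutions of a symmetric design. -/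
def ST_COMB : Prop :=
  ∀ (α β : Type) (X : Set α) (Y : Set β) (I : α → β → Prop) (l : ℕ) (σ : α → α) (τ : β → β),
    1 ≤ l → (∀ x ∈ X, σ x ∈ X) → (∀ y ∈ Y, τ y ∈ Y) → (∀ x ∈ X, σ (σ x) = x) →
    (∀ y ∈ Y, τ (τ y) = y) → (∀ x ∈ X, ∀ y ∈ Y, I (σ x) (τ y) ↔ I x y) →
    SymDesign X Y I l → SymDesign {x | x ∈ X ∧ σ x = x} {y | y ∈ Y ∧ τ y = y} I l →
    (∃ x ∈ X, σ x ≠ x) →
    ∀ y ∈ Y, τ y = y →
      (({x | x ∈ X ∧ I x y}.ncard : ℕ) : ℤ) =
        ((({x | (x ∈ X ∧ σ x = x) ∧ I x y}.ncard : ℕ) : ℤ) - 1) ^ 2 + l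

/-! ## Part B: the `p`-adic limit of point counts -/

/-- Coefficientwise Teichmueller lift. -/
noncomputable def tl (p : ℕ) [Fact p.Prime] {F : Type} [Field F] {N : ℕ}
    (f : MvPolynomial (Fin N) F) : MvPolynomial (Fin N) (WittVector p F) :=
  ∑ w ∈ f.support, monomial w (WittVector.teichmuller p (coeff w f))

/-- Evaluation of a polynomial over `W(F)` at the Teichmueller lift of a point over `E`. -/
noncomputable def ev (p : ℕ) [Fact p.Prime] {F : Type} [Field F] {N : ℕ} {E : Type} [Field E]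
    [Algebra F E] (x : Fin N → E) (G : MvPolynomial (Fin N) (WittVector p F)) : WittVector p E :=
  eval₂ (WittVector.map (algebraMap F E)) (fun i => WittVector.teichmuller p (x i)) G

/-- `H_n = G(X) G(X^q) ... G(X^(q^(n-1)))`. -/
noncomputable def HH {R : Type} [CommRing R] {N : ℕ} (q n : ℕ) (G : MvPolynomial (Fin N) R) :
    MvPolynomial (Fin N) R :=
  ∏ i ∈ Finset.range n, expand (q ^ i) G

/-- the exponent vector `q * w - w'`, the boxes being 1-based (`w j` stands for `w j + 1`) -/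
noncomputable def ex {N B C : ℕ} (q : ℕ) (w : Fin N → Fin B) (w' : Fin N → Fin C) : Fin N →₀ ℕ :=
  Finsupp.equivFunOnFinite.symm fun j => q * ((w j : ℕ) + 1) - ((w' j : ℕ) + 1)

/-- the matrix `(coeff_{q w - w'} G)` on the box `{1..B}^N` -/
noncomputable def CM {R : Type} [CommRing R] {N : ℕ} (q B : ℕ) (G : MvPolynomial (Fin N) R) :
    Matrix (Fin N → Fin B) (Fin N → Fin B) R :=
  fun w w' => if ∀ j, (w' j : ℕ) + 1 ≤ q * ((w j : ℕ) + 1) then coeff (ex q w w') G else 0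

/-- `B_0 = d`, `B_(t+1) = q * B_t` -/
def Bx (q d : ℕ) : ℕ → ℕ
  | 0 => d
  | t + 1 => q * Bx q d t

/-- TEICH.  Congruence for one lifted value. -/
def ST_TEICH : Prop :=
  ∀ (p : ℕ) [Fact p.Prime] (F E : Type) [Field F] [Finite F] [CharP F p] [Field E] [Finite E]
    [Algebra F E] (N : ℕ) (f : MvPolynomial (Fin N) F) (x : Fin N → E) (t m : ℕ), p ^ t ∣ m →
    (p : WittVector p E) ^ (t + 1) ∣
      ev p x (tl p f ^ m) - WittVector.teichmuller p (aeval x f) ^ m

/-- IND.  `H_n` is the lifted indicator function of `f ≠ 0`. -/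
def ST_IND : Prop :=
  ∀ (p : ℕ) [Fact p.Prime] (F E : Type) [Field F] [Finite F] [CharP F p] [Field E] [Finite E]
    [Algebra F E] (N : ℕ) (f : MvPolynomial (Fin N) F) (x : Fin N → E) (t : ℕ) [Decidable (aeval x f = 0)],
    (p : WittVector p E) ^ (t + 1) ∣
      ev p x (HH (Nat.card F) (Module.finrank F E)
        (tl p f ^ ((Nat.card F - 1) * Nat.card F ^ t))) - (if aeval x f = 0 then 0 else 1)

/-- SUMU.  Power sums of Teichmueller representatives. -/
def ST_SUMU : Prop :=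
  ∀ (p : ℕ) [Fact p.Prime] (E : Type) [Field E] [Fintype E] [CharP E p] (u : ℕ),
    ∑ z : E, WittVector.teichmuller p z ^ u =
      if u = 0 then ((Fintype.card E : ℕ) : WittVector p E)
      else if (Fintype.card E - 1) ∣ u then ((Fintype.card E : ℕ) : WittVector p E) - 1 else 0

/-- BOXSUM.  Sum over all points of a polynomial of small degree. -/
def ST_BOXSUM : Prop :=
  ∀ (p : ℕ) [Fact p.Prime] (F E : Type) [Field F] [Finite F] [CharP F p] [Field E] [Fintype E]
    [Algebra F E] (N B s : ℕ) (H : MvPolynomial (Fin N) (WittVector p F)),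
    p ^ s ∣ Fintype.card E → (∀ j, degreeOf j H ≤ (Fintype.card E - 1) * B) →
    (p : WittVector p E) ^ s ∣
      (∑ x : Fin N → E, ev p x H) - (-1) ^ N * ∑ w : Fin N → Fin B,
        WittVector.map (algebraMap F E)
          (coeff (Finsupp.equivFunOnFinite.symm fun j => (Fintype.card E - 1) * ((w j : ℕ) + 1)) H)

/-- TRACE.  Powers of `CM` and the coefficients of `H_n`. -/
def ST_TRACE : Prop :=
  ∀ (R : Type) [CommRing R] (N q B : ℕ) (G : MvPolynomial (Fin N) R), 1 ≤ q →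
    (∀ j, degreeOf j G ≤ (q - 1) * B) → ∀ n, 0 < n →
    (∀ j, degreeOf j (HH q n G) ≤ (q ^ n - 1) * B) ∧
    Matrix.trace (CM q B G ^ n) = ∑ w : Fin N → Fin B,
      coeff (Finsupp.equivFunOnFinite.symm fun j => (q ^ n - 1) * ((w j : ℕ) + 1)) (HH q n G)

/-- COUNT.  The number of points with `f ≠ 0` modulo `p^(t+1)` is a trace. -/
def ST_COUNT : Prop :=
  ∀ (p : ℕ) [Fact p.Prime] (F E : Type) [Field F] [Finite F] [CharP F p] [Field E] [Finite E]
    [Algebra F E] (N : ℕ) (f : MvPolynomial (Fin N) F) (d t : ℕ), (∀ j, degreeOf j f ≤ d) →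
    t + 1 ≤ Module.finrank F E →
    (p : WittVector p E) ^ (t + 1) ∣
      ((Nat.card {x : Fin N → E // aeval x f ≠ 0} : ℕ) : WittVector p E) -
        (-1) ^ N * WittVector.map (algebraMap F E) (Matrix.trace
          (CM (Nat.card F) (Bx (Nat.card F) d t)
            (tl p f ^ ((Nat.card F - 1) * Nat.card F ^ t)) ^ Module.finrank F E))

/-- IDEM.  Idempotent powers in finite monoids. -/
def ST_IDEM : Prop :=
  ∀ (A : Type) [Monoid A] [Finite A] (a : A), ∃ M : ℕ, 0 < M ∧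
    ∀ m, 0 < m → M ∣ m → IsIdempotentElem (a ^ m)

/-- TRID.  Trace of an idempotent matrix over a local ring with a map onto a field. -/
def ST_TRID : Prop :=
  ∀ (R k ι : Type) [CommRing R] [IsLocalRing R] [Field k] [Fintype ι] [DecidableEq ι]
    (φ : R →+* k) (e : Matrix ι ι R), IsIdempotentElem e →
    Matrix.trace e = (((e.map φ).rank : ℕ) : R)

/-- RANK.  Stable ranks of `UV` and `VU` agree. -/
def ST_RANK : Prop :=
  ∀ (k ι κ : Type) [Field k] [Fintype ι] [DecidableEq ι] [Fintype κ] [DecidableEq κ]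
    (U : Matrix ι κ k) (V : Matrix κ ι k) (a b : ℕ), 0 < a → 0 < b →
    IsIdempotentElem ((U * V) ^ a) → IsIdempotentElem ((V * U) ^ b) →
    ((U * V) ^ a).rank = ((V * U) ^ b).rank

/-- UV.  Factorisation of `CM` for `G(X^q)` and `G`. -/
def ST_UV : Prop :=
  ∀ (R : Type) [CommRing R] (N q B : ℕ) (G : MvPolynomial (Fin N) R), 1 ≤ q →
    ∃ (U : Matrix (Fin N → Fin (q * B)) (Fin N → Fin B) R)
      (V : Matrix (Fin N → Fin B) (Fin N → Fin (q * B)) R),
      CM q (q * B) (expand q G) = U * V ∧ CM q B G = V * U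

/-- CHAIN.  The stable ranks mod `p` do not depend on `t`. -/
def ST_CHAIN : Prop :=
  ∀ (F : Type) [Field F] [Finite F] (N : ℕ) (f : MvPolynomial (Fin N) F) (d : ℕ), ∃ r : ℕ,
    ∀ t n, 0 < n → IsIdempotentElem
        (CM (Nat.card F) (Bx (Nat.card F) d t) (f ^ ((Nat.card F - 1) * Nat.card F ^ t)) ^ n) →
      (CM (Nat.card F) (Bx (Nat.card F) d t)
        (f ^ ((Nat.card F - 1) * Nat.card F ^ t)) ^ n).rank = r

/-- WQ.  The quotient `W(F)/p^s` is a finite local ring with a map onto `F`; integers divisible by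
`p^s` in `W(E)`; reduction of `CM`. -/
def ST_WQ : Prop :=
  ∀ (p : ℕ) [Fact p.Prime] (F : Type) [Field F] [Finite F] [CharP F p] (s : ℕ),
    Finite (WittVector p F ⧸ Ideal.span {(p : WittVector p F) ^ (s + 1)}) ∧
    IsLocalRing (WittVector p F ⧸ Ideal.span {(p : WittVector p F) ^ (s + 1)}) ∧
    (∃ φ : (WittVector p F ⧸ Ideal.span {(p : WittVector p F) ^ (s + 1)}) →+* F,
      ∀ z : WittVector p F, φ (Ideal.Quotient.mk _ z) = z.coeff 0) ∧
    (∀ z : ℤ, (p : WittVector p F) ^ s ∣ (z : WittVector p F) → (p : ℤ) ^ s ∣ z) ∧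
    ∀ (N : ℕ) (f : MvPolynomial (Fin N) F), MvPolynomial.map WittVector.constantCoeff (tl p f) = f

/-- PADIC1.  Integral `p`-adic limits of the number of points with `f ≠ 0`. -/
def ST_PADIC1 : Prop :=
  ∀ (p : ℕ) [Fact p.Prime] (F : Type) [Field F] [Finite F] [CharP F p] (N : ℕ)
    (f : MvPolynomial (Fin N) F), ∃ c : ℤ, ∀ s : ℕ, ∃ M : ℕ, 0 < M ∧
      ∀ (E : Type) [Field E] [Finite E] [Algebra F E], M ∣ Module.finrank F E →
        (p : ℤ) ^ s ∣ ((Nat.card {x : Fin N → E // aeval x f ≠ 0} : ℕ) : ℤ) - c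

/-! ## Part C: points over an algebraically closed field -/

/-- points of `V` with coordinates in the field with `q ^ n` elements -/
def fx {K : Type} [Field K] {N : ℕ} (q n : ℕ) (V : Set (Fin N → K)) : Set (Fin N → K) :=
  {x | x ∈ V ∧ ∀ i, x i ^ (q ^ n) = x i}

/-- FIELD.  Finite extensions inside an algebraically closed field. -/
def ST_FIELD : Prop :=
  (∀ (F K : Type) [Field F] [Finite F] [Field K] [IsAlgClosed K] [Algebra F K] (n : ℕ), 0 < n →
    ∃ (E : Type) (_ : Field E) (_ : Finite E) (_ : Algebra F E), Module.finrank F E = n ∧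
      Nonempty (E →ₐ[F] K)) ∧
  (∀ (F K E : Type) [Field F] [Finite F] [Field K] [IsAlgClosed K] [Algebra F K] [Field E] [Finite E]
    [Algebra F E] (φ : E →ₐ[F] K) (z : K),
      (∃ w, φ w = z) ↔ z ^ (Nat.card F ^ Module.finrank F E) = z)

/-- TRANSP.  Transport along an embedding `E → K`. -/
def ST_TRANSP : Prop :=
  ∀ (F K E : Type) [Field F] [Finite F] [Field K] [IsAlgClosed K] [Algebra F K] [Field E] [Finite E]
    [Algebra F E] (N : ℕ) (ι : Type) (P : ι → MvPolynomial (Fin N) F) (T : Set (Set ι)),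
    (Pts P T E).ncard = (fx (Nat.card F) (Module.finrank F E) (Pts P T K)).ncard ∧
    ∀ (M : ℕ) (κ μ : Type) (Q : κ → MvPolynomial (Fin M) F) (U : Set (Set κ))
      (R : μ → MvPolynomial (Fin N ⊕ Fin M) F) (W : Set (Set μ)) (l : ℕ),
      SymDesign (Pts P T E) (Pts Q U E) (Inc R W) l ↔
        SymDesign (fx (Nat.card F) (Module.finrank F E) (Pts P T K))
          (fx (Nat.card F) (Module.finrank F E) (Pts Q U K)) (Inc R W) l

/-- PADICK.  Integral `p`-adic limits for constructible sets, inside `K`. -/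
def ST_PADICK : Prop :=
  ∀ (p : ℕ) [Fact p.Prime] (F K : Type) [Field F] [Finite F] [CharP F p] [Field K] [IsAlgClosed K]
    [Algebra F K] (N : ℕ) (ι : Type) [Finite ι] (P : ι → MvPolynomial (Fin N) F)
    (T : Set (Set ι)), ∃ c : ℤ, ∀ s : ℕ, ∃ M : ℕ, 0 < M ∧ ∀ n, 0 < n → M ∣ n →
      (p : ℤ) ^ s ∣ (((fx (Nat.card F) n (Pts P T K)).ncard : ℕ) : ℤ) - c

/-- COFIN.  The projection of a constructible set to a line is finite or cofinite. -/
def ST_COFIN : Prop :=
  ∀ (K : Type) [Field K] [IsAlgClosed K] (N : ℕ) (ι : Type) [Finite ι]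
    (P : ι → MvPolynomial (Fin N) K) (T : Set (Set ι)) (i : Fin N),
    ((fun x : Fin N → K => x i) '' Pts P T K).Infinite →
    ((fun x : Fin N → K => x i) '' Pts P T K)ᶜ.Finite

/-- GROW.  An infinite constructible set gets new points in quadratic extensions of fields of
degree divisible by any given number. -/
def ST_GROW : Prop :=
  ∀ (F K : Type) [Field F] [Finite F] [Field K] [IsAlgClosed K] [Algebra F K]
    [Algebra.IsAlgebraic F K] (N : ℕ) (ι : Type) [Finite ι] (P : ι → MvPolynomial (Fin N) F)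
    (T : Set (Set ι)), (Pts P T K).Infinite → ∀ M, 0 < M → ∃ n, 0 < n ∧ M ∣ n ∧
      ∃ x ∈ Pts P T K, (∀ i, x i ^ (Nat.card F ^ (2 * n)) = x i) ∧
        ¬ ∀ i, x i ^ (Nat.card F ^ n) = x i

/-- BLOCK.  The points on a block defined over `F_{q^m}` form a constructible set over `F_{q^m}`. -/
def ST_BLOCK : Prop :=
  ∀ (p : ℕ) [Fact p.Prime] (F K : Type) [Field F] [Finite F] [CharP F p] [Field K] [IsAlgClosed K]
    [Algebra F K] (N M : ℕ) (ι μ : Type) [Finite ι] [Finite μ] (P : ι → MvPolynomial (Fin N) F)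
    (T : Set (Set ι)) (R : μ → MvPolynomial (Fin N ⊕ Fin M) F) (W : Set (Set μ)) (m : ℕ)
    (y : Fin M → K), 0 < m → (∀ j, y j ^ (Nat.card F ^ m) = y j) →
    ∃ c : ℤ, ∀ s : ℕ, ∃ A : ℕ, 0 < A ∧ ∀ n, 0 < n → A ∣ n → m ∣ n →
      (p : ℤ) ^ s ∣ (({x | x ∈ fx (Nat.card F) n (Pts P T K) ∧ Inc R W x y}.ncard : ℕ) : ℤ) - c

/-- MAINK.  The theorem for constant `l ≥ 2`, inside `K`. -/
def ST_MAINK : Prop :=
  ∀ (F K : Type) [Field F] [Finite F] [Field K] [IsAlgClosed K] [Algebra F K]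
    [Algebra.IsAlgebraic F K] (N M : ℕ) (ι κ μ : Type) [Finite ι] [Finite κ] [Finite μ]
    (P : ι → MvPolynomial (Fin N) F) (T : Set (Set ι)) (Q : κ → MvPolynomial (Fin M) F)
    (U : Set (Set κ)) (R : μ → MvPolynomial (Fin N ⊕ Fin M) F) (W : Set (Set μ)) (l m : ℕ),
    2 ≤ l → 0 < m →
    (∀ n, 0 < n → m ∣ n → SymDesign (fx (Nat.card F) n (Pts P T K))
      (fx (Nat.card F) n (Pts Q U K)) (Inc R W) l) →
    (Pts P T K).Finite

/-- MAINB.  The theorem for bounded `l`, inside `K`. -/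
def ST_MAINB : Prop :=
  ∀ (F K : Type) [Field F] [Finite F] [Field K] [IsAlgClosed K] [Algebra F K]
    [Algebra.IsAlgebraic F K] (N M : ℕ) (ι κ μ : Type) [Finite ι] [Finite κ] [Finite μ]
    (P : ι → MvPolynomial (Fin N) F) (T : Set (Set ι)) (Q : κ → MvPolynomial (Fin M) F)
    (U : Set (Set κ)) (R : μ → MvPolynomial (Fin N ⊕ Fin M) F) (W : Set (Set μ)) (L m : ℕ),
    0 < m →
    (∀ n, 0 < n → m ∣ n → ∃ l, 1 ≤ l ∧ l ≤ L ∧ SymDesign (fx (Nat.card F) n (Pts P T K))
      (fx (Nat.card F) n (Pts Q U K)) (Inc R W) l) →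
    (Pts P T K).Finite ∨ ∀ n, 0 < n → m ∣ n → SymDesign (fx (Nat.card F) n (Pts P T K))
      (fx (Nat.card F) n (Pts Q U K)) (Inc R W) 1

/-- MAIN.  The theorem for all finite extensions. -/
def ST_MAIN : Prop :=
  ∀ (F : Type) [Field F] [Finite F] (N M : ℕ) (a b c : ℕ)
    (P : Fin a → MvPolynomial (Fin N) F) (T : Set (Set (Fin a)))
    (Q : Fin b → MvPolynomial (Fin M) F) (U : Set (Set (Fin b)))
    (R : Fin c → MvPolynomial (Fin N ⊕ Fin M) F) (W : Set (Set (Fin c))) (L m : ℕ), 0 < m →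
    (∀ (E : Type) [Field E] [Finite E] [Algebra F E], m ∣ Module.finrank F E →
      ∃ l, 1 ≤ l ∧ l ≤ L ∧ SymDesign (Pts P T E) (Pts Q U E) (Inc R W) l) →
    (∃ C, ∀ (E : Type) [Field E] [Finite E] [Algebra F E], (Pts P T E).ncard ≤ C) ∨
    (∀ (E : Type) [Field E] [Finite E] [Algebra F E], m ∣ Module.finrank F E →
      SymDesign (Pts P T E) (Pts Q U E) (Inc R W) 1)

end Pool.Agent.Helper92.AH
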