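import Pool.Agent.Helper92.AH.Defs

set_option autoImplicit false

namespace Pool.Agent.Helper92.AH

open MvPolynomial

/-- PADIC1 with the bound `|c| ≤ d ^ N`. -/
def ST_PADIC1B : Prop :=
  ∀ (p : ℕ) [Fact p.Prime] (F : Type) [Field F] [Finite F] [CharP F p] (N : ℕ)
    (f : MvPolynomial (Fin N) F) (d : ℕ), (∀ j, degreeOf j f ≤ d) →
    ∃ c : ℤ, |c| ≤ (d : ℤ) ^ N ∧ ∀ s : ℕ, ∃ M : ℕ, 0 < M ∧
      ∀ (E : Type) [Field E] [Finite E] [Algebra F E], M ∣ Module.finrank F E →
        (p : ℤ) ^ s ∣ ((Nat.card {x : Fin N → E // aeval x f ≠ 0} : ℕ) : ℤ) - c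

theorem pb_CM_map {R S : Type} [CommRing R] [CommRing S] {N : ℕ} (q B : ℕ) (ψ : R →+* S)
    (G : MvPolynomial (Fin N) R) : (CM q B G).map ψ = CM q B (MvPolynomial.map ψ G) := by
  ext w w'
  rw [Matrix.map_apply]
  unfold CM
  split_ifs with h
  · rw [coeff_map]
  · exact map_zero ψ

theorem pb_map_pow {R S ι : Type} [CommRing R] [CommRing S] [Fintype ι] [DecidableEq ι]
    (ψ : R →+* S) (A : Matrix ι ι R) (n : ℕ) : (A ^ n).map ψ = (A.map ψ) ^ n := by
  have := map_pow (ψ.mapMatrix (m := ι)) A n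
  exact this

theorem st_PADIC1B (hC : ST_COUNT) (hI : ST_IDEM) (hT : ST_TRID) (hR : ST_CHAIN) (hW : ST_WQ) :
    ST_PADIC1B := by
  intro p _ F _ _ _ N f d hd
  obtain ⟨r, hr⟩ := hR F N f d
  have hrle : r ≤ d ^ N := by
    obtain ⟨n, hn, hn'⟩ := hI (Matrix (Fin N → Fin (Bx (Nat.card F) d 0))
      (Fin N → Fin (Bx (Nat.card F) d 0)) F) (CM (Nat.card F) (Bx (Nat.card F) d 0)
      (f ^ ((Nat.card F - 1) * Nat.card F ^ 0)))
    rw [← hr 0 n hn (hn' n hn dvd_rfl)]
    refine (Matrix.rank_le_card_width _).trans ?_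
    rw [Fintype.card_fun, Fintype.card_fin, Fintype.card_fin]
    exact le_refl _
  refine ⟨(-1) ^ N * (r : ℤ), ?_, fun s => ?_⟩
  · rw [abs_mul, abs_pow, abs_neg, abs_one, one_pow, one_mul, abs_of_nonneg (by positivity)]
    exact_mod_cast hrle
  obtain ⟨hfin, hloc, ⟨φ, hφ⟩, -, htl⟩ := hW p F s
  have _i1 := hfin
  have := hloc
  set π := Ideal.Quotient.mk (Ideal.span {(p : WittVector p F) ^ (s + 1)}) with hπ
  set q := Nat.card F with hq
  set B := Bx q d s with hB
  set G : MvPolynomial (Fin N) (WittVector p F) := tl p f ^ ((q - 1) * q ^ s) with hG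
  set A := CM q B G with hA
  obtain ⟨M₀, hM₀, hM₁⟩ := hI (Matrix (Fin N → Fin B) (Fin N → Fin B)
    (WittVector p F ⧸ Ideal.span {(p : WittVector p F) ^ (s + 1)})) (A.map π)
  refine ⟨M₀ * (s + 1), by positivity, fun E _ _ _ hn => ?_⟩
  have : FiniteDimensional F E := Module.Finite.of_finite
  have hn0 : 0 < Module.finrank F E := Module.finrank_pos
  set n := Module.finrank F E with hndef
  have hs : s + 1 ≤ n := Nat.le_of_dvd hn0 ((dvd_mul_left _ _).trans hn)
  have hid := hM₁ n hn0 ((dvd_mul_right _ _).trans hn)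
  -- the trace modulo `p ^ (s + 1)`
  have hφπ : ∀ C : Matrix (Fin N → Fin B) (Fin N → Fin B) (WittVector p F),
      (C.map π).map φ = C.map (WittVector.constantCoeff (p := p) (R := F)) := by
    intro C
    ext w w'
    rw [Matrix.map_apply, Matrix.map_apply, Matrix.map_apply]
    exact hφ _
  have hmodp : ((A.map π) ^ n).map φ = CM q B (f ^ ((q - 1) * q ^ s)) ^ n := by
    rw [pb_map_pow, hφπ, hA, pb_CM_map, hG, map_pow, htl]
  have hid2 : IsIdempotentElem (CM q B (f ^ ((q - 1) * q ^ s)) ^ n) := by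
    rw [← hmodp]
    have := hid.map (φ.mapMatrix (m := Fin N → Fin B))
    exact this
  have htr := hT _ F _ φ _ hid
  rw [hmodp, hr s n hn0 hid2, ← pb_map_pow] at htr
  have htr2 : π (Matrix.trace (A ^ n)) = π (r : WittVector p F) := by
    rw [map_natCast, ← htr]
    unfold Matrix.trace
    rw [map_sum]
    rfl
  have hdvd : (p : WittVector p F) ^ (s + 1) ∣ Matrix.trace (A ^ n) - (r : WittVector p F) := by
    rw [← Ideal.mem_span_singleton]
    exact (Ideal.Quotient.mk_eq_mk_iff_sub_mem _ _).1 htr2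
  -- move to `E`
  have hdvdE : (p : WittVector p E) ^ (s + 1) ∣
      WittVector.map (algebraMap F E) (Matrix.trace (A ^ n)) - (r : WittVector p E) := by
    have := map_dvd (WittVector.map (p := p) (algebraMap F E)) hdvd
    rwa [map_pow, map_natCast, map_sub, map_natCast] at this
  have hcount := hC p F E N f d s hd hs
  have hall : (p : WittVector p E) ^ (s + 1) ∣
      (((Nat.card {x : Fin N → E // aeval x f ≠ 0} : ℕ) : ℤ) - (-1) ^ N * (r : ℤ) : ℤ) := by
    have h3 := dvd_add hcount (hdvdE.mul_left ((-1) ^ N))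
    have h4 : (((((Nat.card {x : Fin N → E // aeval x f ≠ 0} : ℕ) : ℤ) - (-1) ^ N * (r : ℤ) : ℤ)) :
        WittVector p E) = (((Nat.card {x : Fin N → E // aeval x f ≠ 0} : ℕ) : WittVector p E) -
        (-1) ^ N * WittVector.map (algebraMap F E) (Matrix.trace (A ^ n))) +
        (-1) ^ N * (WittVector.map (algebraMap F E) (Matrix.trace (A ^ n)) -
          (r : WittVector p E)) := by
      push_cast
      ring
    rw [h4]
    exact h3
  have : CharP E p := charP_of_injective_algebraMap (algebraMap F E).injective p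
  exact (hW p E s).2.2.2.1 _ ((pow_dvd_pow _ (Nat.le_succ s)).trans hall)

end Pool.Agent.Helper92.AH
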