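import Pool.Agent.Helper92.AH.PB

set_option autoImplicit false

namespace Pool.Agent.Helper92.AH

open MvPolynomial

/-- PADICK with an explicit bound for the limit. -/
def ST_PADICKB : Prop :=
  ∀ (p : ℕ) [Fact p.Prime] (F K : Type) [Field F] [Finite F] [CharP F p] [Field K] [IsAlgClosed K]
    [Algebra F K] (N : ℕ) (ι : Type) [Fintype ι] (P : ι → MvPolynomial (Fin N) F)
    (T : Set (Set ι)) (d : ℕ), (∀ i j, degreeOf j (P i) ≤ d) →
    ∃ c : ℤ, |c| ≤ (3 : ℤ) ^ Fintype.card ι * ((Fintype.card ι * d : ℕ) : ℤ) ^ N ∧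
      ∀ s : ℕ, ∃ M : ℕ, 0 < M ∧ ∀ n, 0 < n → M ∣ n →
      (p : ℤ) ^ s ∣ (((fx (Nat.card F) n (Pts P T K)).ncard : ℕ) : ℤ) - c

theorem pkb_one (h1 : ST_PADIC1B) (hF : ST_FIELD) (hT : ST_TRANSP) (p : ℕ) [Fact p.Prime]
    (F K : Type) [Field F] [Finite F] [CharP F p] [Field K] [IsAlgClosed K] [Algebra F K] (N : ℕ)
    (f : MvPolynomial (Fin N) F) (d : ℕ) (hd : ∀ j, degreeOf j f ≤ d) :
    ∃ c : ℤ, |c| ≤ (d : ℤ) ^ N ∧ ∀ s : ℕ, ∃ M : ℕ, 0 < M ∧ ∀ n, 0 < n → M ∣ n →
      (p : ℤ) ^ s ∣ (((fx (Nat.card F) n {x : Fin N → K | aeval x f ≠ 0}).ncard : ℕ) : ℤ) - c := by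
  obtain ⟨c, hc, hs⟩ := h1 p F N f d hd
  refine ⟨c, hc, fun s => ?_⟩
  obtain ⟨M, hM, hM'⟩ := hs s
  refine ⟨M, hM, fun n hn hMn => ?_⟩
  obtain ⟨E, _, _, _, hE, -⟩ := hF.1 F K n hn
  have h2 := hM' E (by rw [hE]; exact hMn)
  have h3 := (hT F K E N Unit (fun _ => f) {∅}).1
  have h4 : ∀ (L : Type) [Field L] [Algebra F L], Pts (fun _ : Unit => f) {∅} L =
      {x : Fin N → L | aeval x f ≠ 0} := by
    intro L _ _
    ext x
    simp only [Pts, Set.mem_setOf_eq, Set.mem_singleton_iff, Set.eq_empty_iff_forall_notMem]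
    exact ⟨fun h => h (), fun h _ => h⟩
  rw [h4, h4, hE] at h3
  rw [← h3, ← Nat.card_coe_set_eq]
  exact h2

theorem pkb_fin (hF : ST_FIELD) (F K : Type) [Field F] [Finite F] [Field K] [IsAlgClosed K]
    [Algebra F K] (N n : ℕ) (hn : 0 < n) :
    {x : Fin N → K | ∀ i, x i ^ (Nat.card F ^ n) = x i}.Finite := by
  obtain ⟨E, _, _, _, hE, ⟨φ⟩⟩ := hF.1 F K n hn
  have h := hF.2 F K E φ
  have h1 : {z : K | z ^ (Nat.card F ^ n) = z}.Finite := by
    apply (Set.finite_range φ).subset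
    intro z hz
    have := (h z).mpr (by rw [hE]; exact hz)
    exact this
  have h2 : {x : Fin N → K | ∀ i, x i ^ (Nat.card F ^ n) = x i} =
      Set.pi Set.univ (fun _ => {z : K | z ^ (Nat.card F ^ n) = z}) := by
    ext x; simp
  rw [h2]
  exact Set.Finite.pi' (fun _ => h1) |>.subset (by intro x hx; simpa using hx)

/-- signed incidence coefficients -/
noncomputable def pkbEps {ι : Type} [Fintype ι] [DecidableEq ι] (τ t : Finset ι) : ℤ :=
  (∏ i ∈ t, if i ∈ τ then (-1 : ℤ) else 1) * ∏ i ∈ Finset.univ \ t, if i ∈ τ then (1 : ℤ) else 0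

theorem pkb_ind {ι : Type} [Fintype ι] [DecidableEq ι] (τ z : Finset ι) :
    (if z = τ then (1 : ℤ) else 0) =
      ∑ t ∈ (Finset.univ : Finset ι).powerset, pkbEps τ t * ∏ i ∈ t, if i ∈ z then (0 : ℤ) else 1 := by
  have h1 := Finset.prod_add (fun i => (if i ∈ τ then (-1 : ℤ) else 1) * (if i ∈ z then 0 else 1))
    (fun i => if i ∈ τ then (1 : ℤ) else 0) (Finset.univ : Finset ι)
  have h2 : ∏ i : ι, ((if i ∈ τ then (-1 : ℤ) else 1) * (if i ∈ z then 0 else 1) +
      (if i ∈ τ then (1 : ℤ) else 0)) = if z = τ then (1 : ℤ) else 0 := by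
    split_ifs with h
    · subst h
      apply Finset.prod_eq_one
      intro i _
      by_cases hi : i ∈ z <;> simp [hi]
    · have h3 : ∃ i, ¬ (i ∈ z ↔ i ∈ τ) := by
        by_contra hcon
        push Not at hcon
        exact h (Finset.ext hcon)
      obtain ⟨i, hi⟩ := h3
      apply Finset.prod_eq_zero (Finset.mem_univ i)
      by_cases h4 : i ∈ z <;> by_cases h5 : i ∈ τ <;> simp_all
  rw [← h2, h1]
  refine Finset.sum_congr rfl fun t _ => ?_
  rw [pkbEps, Finset.prod_mul_distrib]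
  ring

theorem pkb_abs {ι : Type} [Fintype ι] [DecidableEq ι] :
    ∑ τ ∈ (Finset.univ : Finset ι).powerset, ∑ t ∈ (Finset.univ : Finset ι).powerset,
      |pkbEps τ t| = (3 : ℤ) ^ Fintype.card ι := by
  have h1 : ∀ τ : Finset ι, ∑ t ∈ (Finset.univ : Finset ι).powerset, |pkbEps τ t| =
      ∏ i : ι, (1 + if i ∈ τ then (1 : ℤ) else 0) := by
    intro τ
    rw [Finset.prod_add]
    refine Finset.sum_congr rfl fun t _ => ?_
    rw [pkbEps, abs_mul, Finset.abs_prod, Finset.abs_prod]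
    congr 1
    · refine Finset.prod_congr rfl fun i _ => ?_
      by_cases hi : i ∈ τ <;> simp [hi]
    · refine Finset.prod_congr rfl fun i _ => ?_
      by_cases hi : i ∈ τ <;> simp [hi]
  rw [Finset.sum_congr rfl (fun τ _ => h1 τ)]
  have h2 := Finset.prod_add (fun _ : ι => (2 : ℤ)) (fun _ => 1) (Finset.univ : Finset ι)
  have h3 : ∏ i : ι, ((2 : ℤ) + 1) = 3 ^ Fintype.card ι := by
    rw [Finset.prod_const, Finset.card_univ]; norm_num
  rw [← h3, h2]
  refine Finset.sum_congr rfl fun τ _ => ?_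
  have h4 : ∀ i : ι, (1 + if i ∈ τ then (1 : ℤ) else 0) = if i ∈ τ then 2 else 1 := by
    intro i
    by_cases hi : i ∈ τ <;> simp [hi]
  rw [Finset.prod_congr rfl (fun i _ => h4 i), Finset.prod_ite]
  simp

theorem st_PADICKB (h1 : ST_PADIC1B) (hF : ST_FIELD) (hT : ST_TRANSP) : ST_PADICKB := by
  classical
  intro p _ F K _ _ _ _ _ _ N ι _ P T d hd
  have hdt : ∀ t : Finset ι, ∀ j, degreeOf j (∏ i ∈ t, P i) ≤ Fintype.card ι * d := by
    intro t j
    refine (degreeOf_prod_le j t P).trans ?_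
    refine (Finset.sum_le_sum (fun i _ => hd i j)).trans ?_
    rw [Finset.sum_const, smul_eq_mul]
    exact Nat.mul_le_mul_right d (Finset.card_le_univ t)
  choose c hc hs using fun t : Finset ι =>
    pkb_one h1 hF hT p F K N (∏ i ∈ t, P i) (Fintype.card ι * d) (hdt t)
  choose M hM hM' using hs
  set TT : Finset (Finset ι) := (Finset.univ : Finset ι).powerset.filter
    (fun τ => (τ : Set ι) ∈ T) with hTT
  refine ⟨∑ τ ∈ TT, ∑ t ∈ (Finset.univ : Finset ι).powerset, pkbEps τ t * c t, ?_, ?_⟩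
  · calc |∑ τ ∈ TT, ∑ t ∈ (Finset.univ : Finset ι).powerset, pkbEps τ t * c t|
        ≤ ∑ τ ∈ TT, ∑ t ∈ (Finset.univ : Finset ι).powerset, |pkbEps τ t * c t| := by
          refine (Finset.abs_sum_le_sum_abs _ _).trans ?_
          exact Finset.sum_le_sum fun τ _ => Finset.abs_sum_le_sum_abs _ _
      _ ≤ ∑ τ ∈ TT, ∑ t ∈ (Finset.univ : Finset ι).powerset,
            |pkbEps τ t| * ((Fintype.card ι * d : ℕ) : ℤ) ^ N := by
          refine Finset.sum_le_sum fun τ _ => Finset.sum_le_sum fun t _ => ?_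
          rw [abs_mul]
          exact mul_le_mul_of_nonneg_left (hc t) (abs_nonneg _)
      _ ≤ ∑ τ ∈ (Finset.univ : Finset ι).powerset, ∑ t ∈ (Finset.univ : Finset ι).powerset,
            |pkbEps τ t| * ((Fintype.card ι * d : ℕ) : ℤ) ^ N := by
          refine Finset.sum_le_sum_of_subset_of_nonneg (Finset.filter_subset _ _) ?_
          intro τ _ _
          exact Finset.sum_nonneg fun t _ => mul_nonneg (abs_nonneg _) (by positivity)
      _ = (3 : ℤ) ^ Fintype.card ι * ((Fintype.card ι * d : ℕ) : ℤ) ^ N := by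
          rw [← pkb_abs, Finset.sum_mul]
          refine Finset.sum_congr rfl fun τ _ => ?_
          rw [Finset.sum_mul]
  · intro s
    refine ⟨∏ t ∈ (Finset.univ : Finset ι).powerset, M t s,
      Finset.prod_pos fun t _ => hM t s, fun n hn hdvd => ?_⟩
    have hfin := pkb_fin hF F K N n hn
    set A := hfin.toFinset with hA
    have hcard : ∀ V : Set (Fin N → K), (((fx (Nat.card F) n V).ncard : ℕ) : ℤ) =
        ∑ x ∈ A, Set.indicator V (fun _ => (1 : ℤ)) x := by
      intro V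
      have e : fx (Nat.card F) n V = ((A.filter (fun x => x ∈ V) : Finset (Fin N → K)) :
          Set (Fin N → K)) := by
        ext x
        simp only [fx, Finset.coe_filter, hA, Set.Finite.mem_toFinset]
        exact and_comm
      rw [e, Set.ncard_coe_finset, Finset.card_filter]
      push_cast
      refine Finset.sum_congr rfl fun x _ => ?_
      by_cases hx : x ∈ V
      · rw [if_pos hx, Set.indicator_of_mem hx]
      · rw [if_neg hx, Set.indicator_of_notMem hx]
    have hpt : ∀ x : Fin N → K, Set.indicator (Pts P T K) (fun _ => (1 : ℤ)) x =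
        ∑ τ ∈ TT, ∑ t ∈ (Finset.univ : Finset ι).powerset, pkbEps τ t *
          Set.indicator {x : Fin N → K | aeval x (∏ i ∈ t, P i) ≠ 0} (fun _ => (1 : ℤ)) x := by
      intro x
      set z : Finset ι := Finset.univ.filter (fun i => aeval x (P i) = 0) with hz
      have hz' : (z : Set ι) = {i | aeval x (P i) = 0} := by
        ext i; simp [hz]
      have e1 : ∀ t : Finset ι, Set.indicator {x : Fin N → K | aeval x (∏ i ∈ t, P i) ≠ 0}
          (fun _ => (1 : ℤ)) x = ∏ i ∈ t, if i ∈ z then (0 : ℤ) else 1 := by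
        intro t
        by_cases h : x ∈ {x : Fin N → K | aeval x (∏ i ∈ t, P i) ≠ 0}
        · rw [Set.indicator_of_mem h]
          have h' : aeval x (∏ i ∈ t, P i) ≠ 0 := h
          rw [map_prod, Finset.prod_ne_zero_iff] at h'
          symm
          apply Finset.prod_eq_one
          intro i hi
          rw [if_neg]
          simp [hz, h' i hi]
        · rw [Set.indicator_of_notMem h]
          have h' : aeval x (∏ i ∈ t, P i) = 0 := not_not.mp h
          rw [map_prod, Finset.prod_eq_zero_iff] at h'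
          obtain ⟨i, hi, hi0⟩ := h'
          symm
          apply Finset.prod_eq_zero hi
          rw [if_pos]
          simp [hz, hi0]
      have e2 : ∀ τ ∈ TT, ∑ t ∈ (Finset.univ : Finset ι).powerset, pkbEps τ t *
          Set.indicator {x : Fin N → K | aeval x (∏ i ∈ t, P i) ≠ 0} (fun _ => (1 : ℤ)) x =
          if z = τ then (1 : ℤ) else 0 := by
        intro τ _
        rw [pkb_ind]
        exact Finset.sum_congr rfl fun t _ => by rw [e1]
      rw [Finset.sum_congr rfl e2, Finset.sum_ite_eq]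
      have e3 : x ∈ Pts P T K ↔ z ∈ TT := by
        rw [hTT, Finset.mem_filter, hz']
        simp [Pts]
      by_cases h : z ∈ TT
      · rw [if_pos h, Set.indicator_of_mem (e3.mpr h)]
      · rw [if_neg h, Set.indicator_of_notMem (fun h' => h (e3.mp h'))]
    rw [hcard, Finset.sum_congr rfl (fun x _ => hpt x), Finset.sum_comm,
      ← Finset.sum_sub_distrib]
    refine Finset.dvd_sum fun τ _ => ?_
    rw [Finset.sum_comm, ← Finset.sum_sub_distrib]
    refine Finset.dvd_sum fun t ht => ?_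
    rw [← Finset.mul_sum, ← mul_sub, ← hcard]
    exact Dvd.dvd.mul_left (hM' t s n hn ((Finset.dvd_prod_of_mem _ ht).trans hdvd)) _

end Pool.Agent.Helper92.AH
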