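import Pool.Agent.Helper92.AH.Defs

set_option autoImplicit false

namespace Pool.Agent.Helper92.AH

open Finset Classical

theorem ryser_core {α β : Type} (X : Finset α) (Y : Finset β) (χ : α → β → ℤ)
    (hχ : ∀ x y, χ x y = 0 ∨ χ x y = 1) (hXY : X.card = Y.card) (k l : ℤ) (hl : 1 ≤ l)
    (hk0 : 0 ≤ k) (hk : k < X.card) (hb : ∀ y ∈ Y, ∑ x ∈ X, χ x y = k)
    (hp : ∀ x ∈ X, ∀ x' ∈ X, x ≠ x' → ∑ y ∈ Y, χ x y * χ x' y = l) :
    (∀ x ∈ X, ∑ y ∈ Y, χ x y = k) ∧
      (∀ y ∈ Y, ∀ y' ∈ Y, y ≠ y' → ∑ x ∈ X, χ x y * χ x y' = l) ∧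
      l * ((X.card : ℤ) - 1) = k * (k - 1) := by
  have hsq : ∀ x y, χ x y * χ x y = χ x y := by
    intro x y
    rcases hχ x y with h | h <;> simp [h]
  have hnn : ∀ x y, 0 ≤ χ x y := by
    intro x y
    rcases hχ x y with h | h <;> simp [h]
  -- r_x (k-1) = l (v-1)
  have hr1 : ∀ x ∈ X, (∑ y ∈ Y, χ x y) * (k - 1) = l * ((X.card : ℤ) - 1) := by
    intro x hx
    have h1 : ∑ x' ∈ X, ∑ y ∈ Y, χ x y * χ x' y = (∑ y ∈ Y, χ x y) * k := by
      rw [Finset.sum_comm, Finset.sum_mul]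
      refine Finset.sum_congr rfl fun y hy => ?_
      rw [← Finset.mul_sum, hb y hy]
    rw [← Finset.add_sum_erase _ _ hx] at h1
    have h2 : ∑ x' ∈ X.erase x, ∑ y ∈ Y, χ x y * χ x' y = l * ((X.card : ℤ) - 1) := by
      rw [Finset.sum_congr rfl (fun x' hx' => hp x hx x' (Finset.mem_of_mem_erase hx')
        (Finset.ne_of_mem_erase hx').symm), Finset.sum_const, Finset.card_erase_of_mem hx,
        nsmul_eq_mul, Nat.cast_sub (Finset.card_pos.mpr ⟨x, hx⟩)]
      push_cast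
      ring
    have h3 : ∑ y ∈ Y, χ x y * χ x y = ∑ y ∈ Y, χ x y :=
      Finset.sum_congr rfl fun y _ => hsq x y
    rw [h2, h3] at h1
    linear_combination (-1 : ℤ) * h1
  have hXpos : 0 < X.card := by
    have : (0 : ℤ) < X.card := lt_of_le_of_lt hk0 hk
    exact_mod_cast this
  obtain ⟨x0, hx0⟩ := Finset.card_pos.mp hXpos
  have htot : ∑ x ∈ X, ∑ y ∈ Y, χ x y = k * X.card := by
    rw [Finset.sum_comm, Finset.sum_congr rfl hb, Finset.sum_const, nsmul_eq_mul, hXY]
    ring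
  have hr : ∀ x ∈ X, ∑ y ∈ Y, χ x y = k := by
    intro x hx
    by_cases hk1 : k = 0
    · have h0 : ∑ x ∈ X, ∑ y ∈ Y, χ x y = 0 := by rw [htot, hk1]; simp
      rw [(Finset.sum_eq_zero_iff_of_nonneg
        (fun x _ => Finset.sum_nonneg fun y _ => hnn x y)).mp h0 x hx, hk1]
    · have hk2 : k ≠ 1 := by
        intro h
        have h2 := hr1 x hx
        rw [h] at h2 hk
        have h3 : (0 : ℤ) < l * ((X.card : ℤ) - 1) := by
          apply mul_pos <;> linarith
        rw [← h2] at h3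
        simp at h3
      have hk3 : k - 1 ≠ 0 := by
        intro h; apply hk2; linarith
      have h4 : ∀ x' ∈ X, ∑ y ∈ Y, χ x' y = ∑ y ∈ Y, χ x y := by
        intro x' hx'
        apply mul_right_cancel₀ hk3
        rw [hr1 x hx, hr1 x' hx']
      rw [Finset.sum_congr rfl h4, Finset.sum_const, nsmul_eq_mul] at htot
      have h5 : (X.card : ℤ) ≠ 0 := by
        have : (0 : ℤ) < X.card := by exact_mod_cast hXpos
        exact this.ne'
      apply mul_left_cancel₀ h5
      rw [htot]; ring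
  have hpar : l * ((X.card : ℤ) - 1) = k * (k - 1) := by
    rw [← hr1 x0 hx0, hr x0 hx0]
  refine ⟨hr, ?_, hpar⟩
  intro y0 hy0 y1 hy1 hne
  set c : β → ℤ := fun y => ∑ x ∈ X, χ x y0 * χ x y with hc
  have hc0 : c y0 = k := by
    rw [hc]
    show ∑ x ∈ X, χ x y0 * χ x y0 = k
    rw [Finset.sum_congr rfl (fun x _ => hsq x y0), hb y0 hy0]
  have hs1 : ∑ y ∈ Y, c y = k * k := by
    show ∑ y ∈ Y, ∑ x ∈ X, χ x y0 * χ x y = k * k
    rw [Finset.sum_comm]
    have : ∀ x ∈ X, ∑ y ∈ Y, χ x y0 * χ x y = χ x y0 * k := by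
      intro x hx
      rw [← Finset.mul_sum, hr x hx]
    rw [Finset.sum_congr rfl this, ← Finset.sum_mul, hb y0 hy0]
  have hs2 : ∑ y ∈ Y, c y ^ 2 = k * k + l * (k * k - k) := by
    have e1 : ∀ y ∈ Y, c y ^ 2 = ∑ x ∈ X, ∑ x' ∈ X, (χ x y0 * χ x' y0) * (χ x y * χ x' y) := by
      intro y _
      show (∑ x ∈ X, χ x y0 * χ x y) ^ 2 = _
      rw [sq, Finset.sum_mul_sum]
      refine Finset.sum_congr rfl fun x _ => Finset.sum_congr rfl fun x' _ => ?_
      ring
    rw [Finset.sum_congr rfl e1, Finset.sum_comm]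
    have e2 : ∀ x ∈ X, ∑ y ∈ Y, ∑ x' ∈ X, (χ x y0 * χ x' y0) * (χ x y * χ x' y)
        = χ x y0 * k + l * (χ x y0 * k - χ x y0) := by
      intro x hx
      rw [Finset.sum_comm, ← Finset.add_sum_erase _ _ hx]
      have e3 : ∑ y ∈ Y, (χ x y0 * χ x y0) * (χ x y * χ x y) = χ x y0 * k := by
        rw [← Finset.mul_sum, Finset.sum_congr rfl (fun y _ => hsq x y), hr x hx, hsq]
      have e4 : ∀ x' ∈ X.erase x, ∑ y ∈ Y, (χ x y0 * χ x' y0) * (χ x y * χ x' y)
          = l * χ x y0 * χ x' y0 := by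
        intro x' hx'
        rw [← Finset.mul_sum, hp x hx x' (Finset.mem_of_mem_erase hx')
          (Finset.ne_of_mem_erase hx').symm]
        ring
      rw [e3, Finset.sum_congr rfl e4, ← Finset.mul_sum]
      have e5 := Finset.add_sum_erase X (fun x' => χ x' y0) hx
      rw [hb y0 hy0] at e5
      have e6 : ∑ x' ∈ X.erase x, χ x' y0 = k - χ x y0 := by
        linarith
      rw [e6]
      have e7 := hsq x y0
      linear_combination (-l) * e7
    rw [Finset.sum_congr rfl e2, Finset.sum_add_distrib, ← Finset.mul_sum,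
      Finset.sum_sub_distrib, ← Finset.sum_mul, hb y0 hy0]
  rw [← Finset.add_sum_erase _ _ hy0, hc0] at hs1 hs2
  have hs3 : ∑ y ∈ Y.erase y0, (c y - l) ^ 2 = 0 := by
    have e : ∀ y ∈ Y.erase y0, (c y - l) ^ 2 = c y ^ 2 - 2 * l * c y + l ^ 2 := by
      intro y _; ring
    rw [Finset.sum_congr rfl e, Finset.sum_add_distrib, Finset.sum_sub_distrib, ← Finset.mul_sum,
      Finset.sum_const, Finset.card_erase_of_mem hy0, nsmul_eq_mul,
      Nat.cast_sub (Finset.card_pos.mpr ⟨y0, hy0⟩), ← hXY]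
    push_cast
    linear_combination hs2 - 2 * l * hs1 + l * hpar
  have h4 := (Finset.sum_eq_zero_iff_of_nonneg (fun b _ => sq_nonneg _)).mp hs3 y1
    (Finset.mem_erase.mpr ⟨hne.symm, hy1⟩)
  have h5 : c y1 - l = 0 := pow_eq_zero_iff (two_ne_zero) |>.mp h4
  have h6 : c y1 = l := by linarith
  exact h6

theorem ryser_ncard {α : Type} (X : Set α) (hX : X.Finite) (p : α → Prop) :
    (({x | x ∈ X ∧ p x}.ncard : ℕ) : ℤ) = ∑ x ∈ hX.toFinset, if p x then (1 : ℤ) else 0 := by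
  have e : {x | x ∈ X ∧ p x} = ((hX.toFinset.filter p : Finset α) : Set α) := by
    ext x; simp
  rw [e, Set.ncard_coe_finset, Finset.card_filter]
  push_cast
  rfl

theorem st_RYSER : ST_RYSER := by
  intro α β X Y I l hl hD
  obtain ⟨hX, hY, hXY, k, hk, hb, hp⟩ := hD
  have hcX : (hX.toFinset.card) = X.ncard := (Set.ncard_eq_toFinset_card X hX).symm
  have hcY : (hY.toFinset.card) = Y.ncard := (Set.ncard_eq_toFinset_card Y hY).symm
  have key := ryser_core hX.toFinset hY.toFinset (fun x y => if I x y then (1 : ℤ) else 0)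
    (by intro x y; by_cases h : I x y <;> simp [h]) (by rw [hcX, hcY, hXY]) (k : ℤ) (l : ℤ)
    (by exact_mod_cast hl) (by positivity) (by rw [hcX]; exact_mod_cast hk)
    (by
      intro y hy
      rw [← ryser_ncard X hX (fun x => I x y), hb y (by simpa using hy)])
    (by
      intro x hx x' hx' hne
      have := ryser_ncard Y hY (fun y => I x y ∧ I x' y)
      rw [hp x (by simpa using hx) x' (by simpa using hx') hne] at this
      rw [this]
      refine Finset.sum_congr rfl fun y _ => ?_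
      by_cases h1 : I x y <;> by_cases h2 : I x' y <;> simp [h1, h2])
  obtain ⟨k1, k2, k3⟩ := key
  refine ⟨k, hk, hb, ?_, ?_, ?_⟩
  · intro x hx
    have h1 := k1 x (by simpa using hx)
    rw [← ryser_ncard Y hY (fun y => I x y)] at h1
    exact_mod_cast h1
  · intro y hy y' hy' hne
    have h1 := k2 y (by simpa using hy) y' (by simpa using hy') hne
    have h2 := ryser_ncard X hX (fun x => I x y ∧ I x y')
    have h4 : (({x | x ∈ X ∧ I x y ∧ I x y'}.ncard : ℕ) : ℤ) = l := by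
      rw [h2, ← h1]
      refine Finset.sum_congr rfl fun x _ => ?_
      by_cases h1 : I x y <;> by_cases h2 : I x y' <;> simp [h1, h2]
    exact_mod_cast h4
  · rw [← hcX]
    exact k3

end Pool.Agent.Helper92.AH
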